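import Mathlib
import Pool.Agent.Helper82.PL.Defs

/-!
Packet IBP for MP_8d56bc_an: integration by parts of a vector field of class C1 on an open set
against a Lipschitz function with compact support in that set.
-/

set_option autoImplicit false

open MeasureTheory Set Filter Topology
open scoped Manifold ContDiff

namespace Pool.Agent.Helper10.PL

open Pool.Agent.Helper82.PL

theorem grad_meas (ζ : E2 → ℝ) : Measurable (gradient ζ) := by
  have h1 : Measurable (fderiv ℝ ζ) := measurable_fderiv ℝ ζ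
  exact ((InnerProductSpace.toDual ℝ E2).symm.continuous.measurable).comp h1

theorem grad_le {ζ : E2 → ℝ} {K : NNReal} (h : LipschitzWith K ζ) (x : E2) :
    ‖gradient ζ x‖ ≤ K := by
  unfold gradient
  rw [LinearIsometryEquiv.norm_map]
  exact norm_fderiv_le_of_lipschitz ℝ h

theorem grad_zero {ζ : E2 → ℝ} {x : E2} (hx : x ∉ tsupport ζ) : gradient ζ x = 0 := by
  unfold gradient
  rw [fderiv_of_notMem_tsupport ℝ hx]
  simp

/-- a cut-off function equal to one near a compact set -/
theorem exists_cutoff {K S : Set E2} (hK : IsCompact K) (hS : IsOpen S) (hKS : K ⊆ S) :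
    ∃ χ : E2 → ℝ, ContDiff ℝ (⊤ : ℕ∞) χ ∧ HasCompactSupport χ ∧ tsupport χ ⊆ S ∧
      (∀ᶠ x in 𝓝ˢ K, χ x = 1) := by
  obtain ⟨T, hT, hKT, hTS⟩ := exists_compact_between hK hS hKS
  obtain ⟨f, hf1, hf0, hf2⟩ := exists_contMDiffMap_one_nhds_of_subset_interior
    (I := 𝓘(ℝ, E2)) (n := (⊤ : ℕ∞)) hK.isClosed hKT
  have hsub : tsupport (fun x => f x) ⊆ T := by
    apply closure_minimal _ hT.isClosed
    intro x hx
    by_contra hxT
    exact hx (hf0 x hxT)
  refine ⟨fun x => f x, f.contMDiff.contDiff, ?_, hsub.trans hTS, hf1⟩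
  exact HasCompactSupport.of_support_subset_isCompact hT ((subset_tsupport _).trans hsub)

/-- the coordinates of the gradient -/
theorem gradient_coord (ζ : E2 → ℝ) (x : E2) (i : Fin 2) :
    (gradient ζ x) i = fderiv ℝ ζ x (EuclideanSpace.single i 1) := by
  have h : inner ℝ (gradient ζ x) (EuclideanSpace.single i (1 : ℝ)) =
      fderiv ℝ ζ x (EuclideanSpace.single i 1) := by
    unfold gradient
    rw [InnerProductSpace.toDual_symm_apply]
  rw [← h, EuclideanSpace.inner_single_right]
  simp

/-- the coordinate form of integration by parts -/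
theorem ibp_coord (S : Set E2) (hS : IsOpen S) (f : E2 → ℝ) (hf : ContDiffOn ℝ 1 f S)
    (ζ : E2 → ℝ) (hζ : ∃ K : NNReal, LipschitzWith K ζ) (hc : HasCompactSupport ζ)
    (hs : tsupport ζ ⊆ S) (i : Fin 2) :
    Integrable (fun x => f x * (gradient ζ x) i) ∧
    Integrable (fun x => fderiv ℝ f x (EuclideanSpace.single i 1) * ζ x) ∧
    ∫ x, f x * (gradient ζ x) i = - ∫ x, fderiv ℝ f x (EuclideanSpace.single i 1) * ζ x := by
  obtain ⟨K, hK⟩ := hζ
  obtain ⟨χ, hχ, hχc, hχS, hχ1⟩ := exists_cutoff hc.isCompact hS hs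
  -- the extension of f
  set g : E2 → ℝ := fun x => χ x * f x with hg
  have hgc : HasCompactSupport g := hχc.mul_right
  have hgd : ContDiff ℝ 1 g := by
    rw [contDiff_iff_contDiffAt]
    intro x
    by_cases hx : x ∈ tsupport χ
    · have h1 : ContDiffAt ℝ 1 f x := hf.contDiffAt (hS.mem_nhds (hχS hx))
      exact (hχ.contDiffAt.of_le (by simp)).mul h1
    · have h2 : g =ᶠ[𝓝 x] fun _ => 0 := by
        have h3 : ∀ᶠ y in 𝓝 x, χ y = 0 := by
          have := (isClosed_tsupport χ).isOpen_compl.mem_nhds hx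
          filter_upwards [this] with y hy
          exact image_eq_zero_of_notMem_tsupport hy
        filter_upwards [h3] with y hy
        simp [hg, hy]
      exact contDiffAt_const.congr_of_eventuallyEq h2
  obtain ⟨D, hD⟩ := ContDiff.lipschitzWith_of_hasCompactSupport hgc hgd (by simp)
  have heq : ∀ x ∈ tsupport ζ, g =ᶠ[𝓝 x] f := by
    intro x hx
    have h1 := (eventually_nhdsSet_iff_forall.1 hχ1) x hx
    filter_upwards [h1] with y hy
    simp [hg, hy]
  have hfd : ∀ x, fderiv ℝ f x (EuclideanSpace.single i 1) * ζ x =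
      fderiv ℝ g x (EuclideanSpace.single i 1) * ζ x := by
    intro x
    by_cases hx : x ∈ tsupport ζ
    · rw [(heq x hx).fderiv_eq]
    · rw [image_eq_zero_of_notMem_tsupport hx]; simp
  have hfg : ∀ x, f x * (gradient ζ x) i = g x * (gradient ζ x) i := by
    intro x
    by_cases hx : x ∈ tsupport ζ
    · rw [(heq x hx).eq_of_nhds]
    · rw [grad_zero hx]; simp
  have hgrad_meas : Measurable (fun x => (gradient ζ x) i) := by
    have h1 := grad_meas ζ
    have h2 : Measurable (fun y : E2 => y i) := (EuclideanSpace.proj i).continuous.measurable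
    exact h2.comp h1
  have hI1 : Integrable (fun x => g x * (gradient ζ x) i) := by
    have h0 : Integrable g := hgd.continuous.integrable_of_hasCompactSupport hgc
    refine h0.mul_bdd (c := K) hgrad_meas.aestronglyMeasurable ?_
    refine Eventually.of_forall fun x => ?_
    exact (PiLp.norm_apply_le (gradient ζ x) i).trans (grad_le hK x)
  have hcd : Continuous (fun x => fderiv ℝ g x (EuclideanSpace.single i 1) * ζ x) :=
    ((hgd.continuous_fderiv (by simp)).clm_apply continuous_const).mul hK.continuous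
  have hI2 : Integrable (fun x => fderiv ℝ g x (EuclideanSpace.single i 1) * ζ x) := 
    hcd.integrable_of_hasCompactSupport hc.mul_left
  refine ⟨by simpa only [hfg] using hI1, by simpa only [hfd] using hI2, ?_⟩
  simp only [hfg, hfd]
  have hmain := LipschitzWith.integral_lineDeriv_mul_eq (μ := (volume : Measure E2)) hK hD hgc
    (EuclideanSpace.single i (1 : ℝ))
  have hae := hK.ae_differentiableAt (μ := (volume : Measure E2))
  have h1 : ∫ x, g x * (gradient ζ x) i =
      ∫ x, lineDeriv ℝ ζ x (EuclideanSpace.single i (1 : ℝ)) * g x := by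
    apply integral_congr_ae
    filter_upwards [hae] with x hx
    rw [hx.lineDeriv_eq_fderiv, gradient_coord, mul_comm]
  have h2 : ∫ x, lineDeriv ℝ g x (-(EuclideanSpace.single i (1 : ℝ))) * ζ x =
      - ∫ x, fderiv ℝ g x (EuclideanSpace.single i 1) * ζ x := by
    rw [← integral_neg]
    congr 1
    ext x
    rw [((hgd.differentiable (by simp)) x).lineDeriv_eq_fderiv]
    simp
  rw [h1, hmain, h2]

theorem fderiv_coord {S : Set E2} (hS : IsOpen S) {F : E2 → E2} (hF : ContDiffOn ℝ 1 F S)
    {x : E2} (hx : x ∈ S) (v : E2) (i : Fin 2) :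
    (fderiv ℝ F x v) i = fderiv ℝ (fun y => F y i) x v := by
  have h1 : DifferentiableAt ℝ F x :=
    (hF.contDiffAt (hS.mem_nhds hx)).differentiableAt (by simp)
  have h2 : HasFDerivAt (fun y => F y i) ((EuclideanSpace.proj i : E2 →L[ℝ] ℝ).comp (fderiv ℝ F x)) x :=
    (EuclideanSpace.proj i : E2 →L[ℝ] ℝ).hasFDerivAt.comp x h1.hasFDerivAt
  rw [h2.fderiv]
  rfl

theorem ibp : stmtIBP := by
  intro S hS F hF ζ hζ hc hs
  have hFi : ∀ i : Fin 2, ContDiffOn ℝ 1 (fun y => F y i) S := by
    intro i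
    exact (EuclideanSpace.proj i : E2 →L[ℝ] ℝ).contDiff.comp_contDiffOn hF
  obtain ⟨a0, b0, c0⟩ := ibp_coord S hS _ (hFi 0) ζ hζ hc hs 0
  obtain ⟨a1, b1, c1⟩ := ibp_coord S hS _ (hFi 1) ζ hζ hc hs 1
  have hL : ∀ x, inner ℝ (F x) (gradient ζ x) =
      F x 0 * (gradient ζ x) 0 + F x 1 * (gradient ζ x) 1 := by
    intro x
    rw [PiLp.inner_apply]
    simp [Fin.sum_univ_two]
    ring
  have hR : ∀ x, dv F x * ζ x =
      fderiv ℝ (fun y => F y 0) x (EuclideanSpace.single 0 1) * ζ x +
      fderiv ℝ (fun y => F y 1) x (EuclideanSpace.single 1 1) * ζ x := by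
    intro x
    by_cases hx : x ∈ tsupport ζ
    · unfold dv e0 e1
      rw [fderiv_coord hS hF (hs hx), fderiv_coord hS hF (hs hx)]
      ring
    · rw [image_eq_zero_of_notMem_tsupport hx]; simp
  refine ⟨?_, ?_, ?_⟩
  · simp only [hL]; exact a0.add a1
  · simp only [hR]; exact b0.add b1
  · simp only [hL, hR]
    rw [integral_add a0 a1, integral_add b0 b1, c0, c1]
    ring

end Pool.Agent.Helper10.PL
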